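import Pool.Agent.H62.RP2.CoreA
import Pool.Agent.H98.RP2.BaseB
import Pool.Agent.H6.RP2.HitB

/-! Team RP, window near 2 (helper62): assembly of case B, and the window near `2`. -/

set_option autoImplicit false

namespace Pool.Agent.H62.RP2

open Finset H54RP Pool.Agent.H98.RP2 Pool.Agent.H6.RP2 Pool.Agent.H6.LvdP2

lemma fl_FB {N M D g : ℤ} (h : HB ⟨N, M, D, g⟩) (σ : Bool) :
    (famB N M D).fl σ g = FB N M D σ g := by
  apply Flow_ext (c := cL (2 * N + D) N)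
  · funext X v
    rw [FB_W h]
    exact Fam.fl_W (famB N M D) σ (okB h) X v
  · exact Fam.fl_supp (famB N M D) σ (okB h)

lemma PB.nums {N M D g0 g1 ga c0 c1 y : ℤ} (hP : PB N M D g0 g1 ga c0 c1)
    (hN : 1000 * y ≤ N) :
    g0 ≤ g1 ∧ N < 1000 * (g1 + 1 - g0) ∧ 400 * (N / 400) ≤ N ∧ 2 * y ≤ N / 400 ∧
    4 * c0 - 1 + 5 * y ≤ 4 * c1 - 2 ∧ (4 * c1 - 2) - (4 * c0 - 1) ≤ 4 * N ∧ g0 ≤ ga ∧
    1000 * (N / 1000) ≤ N ∧ 0 ≤ g0 := by
  obtain ⟨hN3, hM, D1, D2, h0, h0', g1', g1'', ga', ga'', a1, a2, a3⟩ := hP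
  subst a1
  refine ⟨by omega, by omega, by omega, by omega, by omega, by omega, by omega, by omega,
    by omega⟩

/-- assembly of case B -/
theorem coreB_aux {s : ℕ} {N M D g0 g1 ga c0 c1 : ℤ} (hs : 25 ≤ s) (hN : N = 4 ^ s)
    (hP : PB N M D g0 g1 ga c0 c1) (σ : Bool)
    (U : ℕ → Set ℤ) (hUU : Monotone U)
    (hstep : ∀ n, ∀ X ∈ U n, ∀ g, ((g0 ≤ g ∧ g ≤ g1) ∨ g = ga) → ∀ v,
      (FB N M D σ g).W X v ≠ 0 → T (cL (2 * N + D) N) v X ∈ U (n + 1))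
    (hD : ∀ X ∈ U (nn 16640 (1 / 4096) s), ¬ DigB (s + 1) X)
    (h0 : ∃ X ∈ U 0, -2 * M + g0 ≤ blk X ∧ blk X < N - g0) :
    ∀ X, (-2 * M + g0 ≤ blk X ∧ blk X < N - g0) → ¬ DigB (s + 1) X →
      X ∈ U (nn 16640 (1 / 4096) s) := by
  have hN3 := hP.hN
  obtain ⟨L, hL⟩ : ∃ L, L = s - 20 := ⟨_, rfl⟩
  have hs' : s = L + 20 := by omega
  have hN4 : N = 1099511627776 * 4 ^ L := by
    rw [hN, hs', pow_add]; norm_num; ring
  have h4L : (0 : ℤ) < 4 ^ L := by positivity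
  have hN0 : 0 < N := by rw [hN]; positivity
  obtain ⟨hg01, hNg, hcc, h2L, h5L, hAB, hg0a, he, hg0⟩ :=
    PB.nums (y := 4 ^ L) hP (by rw [hN4]; linarith)
  have hA0 : HB ⟨N, M, D, g0⟩ := hP.toB ⟨le_rfl, hg01⟩
  have hq0 : (0 : ℝ) < 1 / 4096 := by norm_num
  have hCl : (0 : ℝ) ≤ 16640 := by norm_num
  -- labels
  have hall : ∀ g ∈ insert ga (Icc g0 g1), HB ⟨N, M, D, g⟩ := by
    intro g hg
    rw [mem_insert, mem_Icc] at hg
    rcases hg with rfl | hg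
    · exact hP.toBa
    · exact hP.toB hg
  have hfl : ∀ g ∈ insert ga (Icc g0 g1), (lfB N M D σ (Icc g0 g1)).F g = FB N M D σ g :=
    fun g hg => fl_FB (hall g hg) σ
  have hsub : ∀ g ∈ Icc g0 g1, g ∈ insert ga (Icc g0 g1) := fun g hg => mem_insert_of_mem hg
  have m0 : g0 ∈ insert ga (Icc g0 g1) := hsub g0 (mem_Icc.2 ⟨le_rfl, hg01⟩)
  have ma : ga ∈ insert ga (Icc g0 g1) := mem_insert_self _ _
  have hcard : ((lfB N M D σ (Icc g0 g1)).G.card : ℝ) = ((g1 + 1 - g0 : ℤ) : ℝ) := by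
    change (((Icc g0 g1).card : ℕ) : ℝ) = _
    rw [Int.card_Icc]
    have : (((g1 + 1 - g0).toNat : ℕ) : ℤ) = g1 + 1 - g0 := Int.toNat_of_nonneg (by linarith)
    exact_mod_cast this
  have c2' : (((4 * c1 - 2 : ℤ) : ℝ)) - ((4 * c0 - 1 : ℤ) : ℝ) ≤ 4 ^ 21 * 4 ^ L := by
    have h2 : (((4 * c1 - 2) - (4 * c0 - 1) : ℤ) : ℝ) ≤ ((4 * (1099511627776 * 4 ^ L) : ℤ) : ℝ) := by
      rw [← hN4]
      exact_mod_cast hAB
    push_cast at h2 ⊢
    linarith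
  have c3' : 8 * ((lfB N M D σ (Icc g0 g1)).kB) * 4 ^ L ≤
      1 / 32768 * ((lfB N M D σ (Icc g0 g1)).G.card : ℝ) := by
    rw [hcard]
    have e : (lfB N M D σ (Icc g0 g1)).kB = 524 := by
      simp only [lfB, Fam.lf]; norm_num
    rw [e]
    rw [hN4] at hNg
    have h2 : (1099511627776 * 4 ^ L : ℝ) < 1000 * ((g1 + 1 - g0 : ℤ) : ℝ) := by
      exact_mod_cast hNg
    have h3 : (0 : ℝ) < 4 ^ L := by positivity
    push_cast at h2 ⊢
    linarith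
  have hw1 : ∀ g ∈ (lfB N M D σ (Icc g0 g1)).G, ∀ X ∈ Icc (4 * c0 - 1) (4 * c1 - 2),
      1 ≤ ((lfB N M D σ (Icc g0 g1)).F g).w X := fun g hg X hX => by
    have hg' := mem_Icc.1 hg
    have e := hfl g (hsub g hg)
    have e2 := FB_w (σ := σ) (hall g (hsub g hg)) X
    rw [← e] at e2
    rw [mem_Icc] at hX
    rw [hP.w_cR (Or.inl hg') (j := blk X) (by clear * - hX; unfold blk; omega)] at e2
    refine le_of_eq ?_
    rw [Int.cast_one] at e2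
    exact e2.symm
  have hw2 : ∀ g ∈ insert ga (Icc g0 g1), ∀ X, ((lfB N M D σ (Icc g0 g1)).F g).w X ≤ 2 :=
    fun g hg X => by
      have e := hfl g hg
      have e2 := FB_w (σ := σ) (hall g hg) X
      rw [← e] at e2
      refine le_trans (le_of_eq e2) ?_
      exact_mod_cast Chn.w_le (hall g hg).wok (blk X)
  have hL' := landLB hP σ (Icc g0 g1) (fun g hg => mem_Icc.1 hg) (N / 400) hcc
    (2 * (1 / 32768)) (by norm_num)
  have hbase : ∀ f : ℤ → ℝ, (∀ X, f X = 0 ∨ f X = 1) → ∀ E : ℝ,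
      (∀ g ∈ insert ga (Icc g0 g1), ((lfB N M D σ (Icc g0 g1)).F g).E1 f ≤ E) →
      vr f (4 * c0 - 1) (4 * c1 - 2) 1 ≤ (1920 * (s + 1)) * E := fun f _ E hE => by
    have h1 := hE g0 m0
    have h2 := hE ga ma
    rw [hfl g0 m0] at h1
    rw [hfl ga ma] at h2
    exact base_B (le_trans (by norm_num) hs) hN hP σ f E h1 h2
  have hlink : ∀ f : ℤ → ℝ, (∀ X, f X = 0 ∨ f X = 1) → ∀ e : ℝ, (e = 0 ∨ e = 1) → ∀ E : ℝ,
      (∀ g ∈ insert ga (Icc g0 g1), ((lfB N M D σ (Icc g0 g1)).F g).E1 f ≤ E) →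
      ∑ X ∈ CC M c0 c1 (N / 1000), |f X - e| ≤
        16640 * (∑ X ∈ Icc (4 * c0 - 1 + 2 * 4 ^ L) (4 * c1 - 2 - 3 * 4 ^ L), |f X - e| + E) :=
    fun f hf e he E hE => by
      have h1 := hE g0 m0
      have h2 := hE ga ma
      rw [hfl g0 m0] at h1
      rw [hfl ga ma] at h2
      exact linkFB σ hP (4 ^ L) (N / 1000) (by rw [hN4]; linarith) h4L.le (by clear * -; omega)
        (by clear * - hN0; omega) f e E h1 h2
  have hS1 : SS ⟨N, M, D, g0⟩ s ⊆ ((lfB N M D σ (Icc g0 g1)).F g0).supp := by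
    rw [hfl g0 m0]
    exact SS_subset _ _
  have hS1w : ∀ X ∈ SS ⟨N, M, D, g0⟩ s, 1 ≤ ((lfB N M D σ (Icc g0 g1)).F g0).w X :=
    fun X hX => by
      have e2 := FB_w (σ := σ) hA0 X
      rw [← hfl g0 m0] at e2
      refine le_trans ?_ (le_of_eq e2.symm)
      exact_mod_cast Chn.w_pos hA0.wok (mem_SS.1 hX).1
  have hhit : ∀ X ∈ SS ⟨N, M, D, g0⟩ s, (1 / 4096 : ℝ) ≤
      eta ((lfB N M D σ (Icc g0 g1)).F g0)
        (fun Y => Y ∈ CC M c0 c1 (N / 1000)) (s + 4) X := fun X hX => by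
    rw [hfl g0 m0]
    obtain ⟨h1, h2⟩ := mem_SS.1 hX
    refine (hit_FB (e := N / 1000) hP σ hN he ((FB_mem X).2 h1) h2).trans ?_
    exact eta_mono_set (FB N M D σ g0) (fun Y hY => mem_CC.2 hY) _ X
  have hK1 := num_ineq hCl hq0 (L := L) (m := s + 4) (s := s)
    (by rw [hs']; exact Nat.le_add_right _ _) (by clear * -; omega)
  have hK : K1r 16640 (1 / 4096) s + 2 * K1r 16640 (1 / 4096) s ≤ (KK 16640 (1 / 4096) s : ℝ) := by
    have := Nat.le_ceil (3 * K1r 16640 (1 / 4096) s)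
    unfold KK
    linarith
  have hn1 : 2 * KK 16640 (1 / 4096) s * (Nat.log 2 (SS ⟨N, M, D, g0⟩ s).card + 1) ≤
      nn 16640 (1 / 4096) s := by
    have := log_SS (P := ⟨N, M, D, g0⟩) (s := s) hN3 hN hg0
    unfold nn
    exact Nat.mul_le_mul_left _ this
  have hstep' : ∀ n < nn 16640 (1 / 4096) s, ∀ X ∈ U n, ∀ g ∈ insert ga (Icc g0 g1), ∀ v,
      ((lfB N M D σ (Icc g0 g1)).F g).W X v ≠ 0 →
        T (cL (famB N M D).q (famB N M D).N) v X ∈ U (n + 1) :=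
    fun n _ X hX g hg v hv => by
      rw [hfl g hg] at hv
      rw [mem_insert, mem_Icc] at hg
      exact hstep n X hX g hg.symm v hv
  have hcl' : ∀ n ≤ nn 16640 (1 / 4096) s, ∀ g ∈ insert ga (Icc g0 g1),
      ∀ X ∈ ((lfB N M D σ (Icc g0 g1)).F g).supp, X ∈ U n → X ∈ SS ⟨N, M, D, g0⟩ s :=
    fun n hn g hg X hX hXU => by
      rw [hfl g hg, FB_mem] at hX
      have hgg : g0 ≤ g := by
        rw [mem_insert, mem_Icc] at hg
        rcases hg with rfl | hg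
        · exact hg0a
        · exact hg.1
      rw [mem_SS]
      exact ⟨⟨by simp only; linarith [hX.1], by simp only; linarith [hX.2]⟩,
        hD X (hUU hn hXU)⟩
  have h0' : ∃ X ∈ SS ⟨N, M, D, g0⟩ s, X ∈ U 0 := by
    obtain ⟨X, hX, hb⟩ := h0
    exact ⟨X, mem_SS.2 ⟨hb, hD X (hUU (Nat.zero_le _) hX)⟩, hX⟩
  have hGc : 0 < (lfB N M D σ (Icc g0 g1)).G.card := by
    exact card_pos.2 ⟨g0, mem_Icc.2 ⟨le_rfl, hg01⟩⟩
  have key := reachT (lfB N M D σ (Icc g0 g1)) (insert ga (Icc g0 g1)) hsub hGc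
    g0 m0 (4 * c0 - 1) (4 * c1 - 2) (N / 400) (1 / 32768) 2 (by norm_num)
    (by norm_num) (by norm_num) 2 le_rfl hw1 hw2 hL' 47 (by norm_num) L c3' h2L h5L
    (4 ^ 21) (by norm_num) c2' (1920 * (s + 1)) (by positivity) hbase
    (CC M c0 c1 (N / 1000)) 16640 hCl hlink (SS ⟨N, M, D, g0⟩ s) hS1 hS1w
    (s + 4) (1 / 4096) hq0 hhit (K1r 16640 (1 / 4096) s) hK1 (KK 16640 (1 / 4096) s) hK
    (KK_pos hCl hq0 s) (nn 16640 (1 / 4096) s) hn1 U hUU hstep' hcl' h0'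
  intro X hX hXD
  exact key X (mem_SS.2 ⟨hX, hXD⟩)

/-- **core statement, case B** -/
theorem coreB : ∃ C : ℕ, CoreB C 50 25 := by
  obtain ⟨C, hC⟩ := nn_le (Cl := 16640) (q := 1 / 4096) (by norm_num) (by norm_num)
  refine ⟨C, ?_⟩
  intro s hs N M D g0 g1 ga c0 c1 hN hP σ U hUU hstep hD h0 X hX hXD
  have hnn := hC s
  refine hUU hnn ?_
  exact coreB_aux hs hN hP σ U hUU hstep (fun X hX => hD X (hUU hnn hX)) h0 X hX hXD

lemma CoreA.mono {C C' c s0 : ℕ} (h : CoreA C c s0) (hC : C ≤ C') : CoreA C' c s0 := by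
  intro s hs N M D g0 g1 c0 c1 hN hP σ U hUU hstep hD h0 X hX hXD
  have hle : C * (s + 1) ^ c ≤ C' * (s + 1) ^ c := Nat.mul_le_mul_right _ hC
  exact hUU hle (h s hs N M D g0 g1 c0 c1 hN hP σ U hUU hstep
    (fun X hX => hD X (hUU hle hX)) h0 X hX hXD)

lemma CoreB.mono {C C' c s0 : ℕ} (h : CoreB C c s0) (hC : C ≤ C') : CoreB C' c s0 := by
  intro s hs N M D g0 g1 ga c0 c1 hN hP σ U hUU hstep hD h0 X hX hXD
  have hle : C * (s + 1) ^ c ≤ C' * (s + 1) ^ c := Nat.mul_le_mul_right _ hC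
  exact hUU hle (h s hs N M D g0 g1 ga c0 c1 hN hP σ U hUU hstep
    (fun X hX => hD X (hUU hle hX)) h0 X hX hXD)

/-- **the window near `2`**: `7/4 ≤ |k| / 4^t ≤ 17/8` -/
theorem near2 : ∃ C : ℕ, Pool.Agent.H6.LvdP3.Win C 50 26 7 4 17 8 := by
  obtain ⟨C1, h1⟩ := coreA
  obtain ⟨C2, h2⟩ := coreB
  exact ⟨max C1 C2 + 5, window (by norm_num) (CoreA.mono h1 (le_max_left _ _))
    (CoreB.mono h2 (le_max_right _ _))⟩

end Pool.Agent.H62.RP2
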