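import Pool.Agent.H62.RP2.Word
import Pool.Agent.H98.RP2.Fam
import Pool.Agent.H54.RP.Iter
import Pool.Agent.H54.RP.LabelAB

/-! Team RP, window near 2 (helper62): the landing property. -/

set_option autoImplicit false

namespace Pool.Agent.H62.RP2

open Finset H54RP Pool.Agent.H98.RP2

/-- the residue `X - 4 blk X` of the states where the letter sign `b` is forced -/
def rho (σ : Bool) (b : ℤ) : ℤ :=
  if b = 1 then (if σ then -1 else 2) else (if σ then 2 else -1)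

lemma mass_forced {C : Chn} (σ : Bool) {b : ℤ} (hb : b = 1 ∨ b = -1) {X : ℤ}
    (hX : X - 4 * blk X = rho σ b) : C.mass σ b X = 2 * C.P.w (blk X) := by
  unfold Chn.mass ty
  rw [hX]
  rcases hb with rfl | rfl <;> cases σ <;> simp [rho]

section
variable {C : Chn} (h : C.Ex) (hw : Chn.Wok C.P) (σ : Bool) (F : Flow (cL C.P.Q C.P.N))
  (hF : ∀ X v, F.W X v = C.W σ X v)

include h hF in
lemma Fw (X : ℤ) : F.w X = C.P.w (blk X) := by
  unfold Flow.w
  rw [← Chn.W_sum h σ X]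
  exact sum_congr rfl fun v _ => hF X v

include h hw hF in
lemma blk_of_w {X : ℤ} (hX : F.w X ≠ 0) :
    -2 * C.P.M + C.P.g ≤ blk X ∧ blk X < C.P.N - C.P.g := by
  by_contra hc
  apply hX
  rw [Fw h σ F hF, Chn.w_zero hw (by omega)]
  simp

include h hw hF in
lemma K_ge (X : ℤ) (v : Lt)
    (hb : bb v = 1 ∨ bb v = -1) (hX : X - 4 * blk X = rho σ (bb v))
    (hpos : -2 * C.P.M + C.P.g ≤ blk X ∧ blk X < C.P.N - C.P.g)
    (hd : 1 ≤ C.Dd (dd v) (blk X + C.P.Q * bb v)) :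
    1 / 32 ≤ F.K X v := by
  have hwp := Chn.w_pos hw hpos
  have hm : 1 ≤ C.mass σ (bb v) X := by
    rw [mass_forced σ hb hX]; omega
  have h1 := Chn.W_ge h hw σ X v hm hd
  have h2 := Chn.w_le hw (blk X)
  unfold Flow.K
  rw [Fw h σ F hF, hF]
  have h3 : (C.P.w (blk X) : ℝ) ≤ 2 := by exact_mod_cast h2
  have h4 : (1 : ℝ) ≤ C.P.w (blk X) := by exact_mod_cast hwp
  rw [div_le_div_iff₀ (by norm_num) (by linarith)]
  nlinarith

include h hw hF in
/-- a two-letter word from one state -/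
lemma Fl_ge (Om : ℤ → ℝ)
    (hO : ∀ X, 0 ≤ Om X) (X : ℤ) (v1 v2 : Lt)
    (hb1 : bb v1 = 1 ∨ bb v1 = -1) (hb2 : bb v2 = 1 ∨ bb v2 = -1)
    (hX : X - 4 * blk X = rho σ (bb v1))
    (hpos : -2 * C.P.M + C.P.g ≤ blk X ∧ blk X < C.P.N - C.P.g) (lo up : ℤ)
    (hOm : ∀ Y, lo ≤ Y → Y ≤ up → 1 ≤ Om Y)
    (hok : OKw C lo up (bb v1) (dd v1) (bb v2) (dd v2) (blk X))
    (hX1 : (blk X + cL C.P.Q C.P.N v1) - 4 * blk (blk X + cL C.P.Q C.P.N v1) = rho σ (bb v2)) :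
    1 / 1024 ≤ Fl F (fun _ _ => 1) Om 2 X := by
  have hK1 := K_ge h hw σ F hF X v1 hb1 hX hpos hok.p1
  set X1 := T (cL C.P.Q C.P.N) v1 X with hX1d
  have hX1e : X1 = blk X + cL C.P.Q C.P.N v1 := rfl
  have hne : F.w X1 ≠ 0 := by
    intro h0
    have h1 := F.W_le_w_T X v1
    rw [← hX1d, h0] at h1
    have h2 := le_antisymm h1 (F.nonneg X v1)
    have : F.K X v1 = 0 := by unfold Flow.K; rw [h2, zero_div]
    rw [this] at hK1
    norm_num at hK1
  have hpos1 := blk_of_w h hw σ F hF hne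
  have hcl : blk X + cL C.P.Q C.P.N v1 = blk X + C.P.Q * bb v1 + C.P.N * dd v1 := by
    unfold cL; ring
  have hK2 := K_ge h hw σ F hF X1 v2 hb2 (by rw [hX1e]; exact hX1) hpos1
    (by rw [hX1e, hcl]; exact hok.p2)
  have hOm2 : 1 ≤ Om (T (cL C.P.Q C.P.N) v2 X1) := by
    have e : T (cL C.P.Q C.P.N) v2 X1 =
        blk (blk X + C.P.Q * bb v1 + C.P.N * dd v1) + C.P.Q * bb v2 + C.P.N * dd v2 := by
      unfold T
      rw [hX1e, hcl]; unfold cL; ring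
    rw [e]
    exact hOm _ hok.t1 hok.t2
  have n0 : ∀ (L : ℕ) (Y : ℤ), 0 ≤ Fl F (fun _ _ => 1) Om L Y := fun L Y =>
    Fl_nonneg F (fun _ _ => zero_le_one) hO L Y
  have s1 : F.K X1 v2 * Om (T (cL C.P.Q C.P.N) v2 X1) ≤ Fl F (fun _ _ => 1) Om 1 X1 := by
    simp only [Fl, one_mul]
    exact single_le_sum (f := fun v => F.K X1 v * Om (T (cL C.P.Q C.P.N) v X1))
      (fun v _ => mul_nonneg (F.K_nonneg X1 v) (hO _)) (mem_univ v2)
  have s2 : F.K X v1 * Fl F (fun _ _ => 1) Om 1 X1 ≤ Fl F (fun _ _ => 1) Om 2 X := by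
    have e : Fl F (fun _ _ => 1) Om 2 X =
        ∑ v, F.K X v * Fl F (fun _ _ => 1) Om 1 (T (cL C.P.Q C.P.N) v X) := by
      simp only [Fl, one_mul]
    rw [e]
    exact single_le_sum
      (f := fun v => F.K X v * Fl F (fun _ _ => 1) Om 1 (T (cL C.P.Q C.P.N) v X))
      (fun v _ => mul_nonneg (F.K_nonneg X v) (n0 _ _)) (mem_univ v1)
  have a1 : (1 : ℝ) / 32 ≤ Fl F (fun _ _ => 1) Om 1 X1 := by
    refine le_trans ?_ s1
    have := mul_le_mul hK2 hOm2 (by norm_num) (le_trans (by norm_num) hK2)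
    linarith
  refine le_trans ?_ s2
  have := mul_le_mul hK1 a1 (by norm_num) (le_trans (by norm_num) hK1)
  linarith

include h hw hF in
/-- landing from sixteen consecutive states -/
theorem land16 (Om : ℤ → ℝ)
    (hO : ∀ X, 0 ≤ Om X) (lo up : ℤ) (hOm : ∀ Y, lo ≤ Y → Y ≤ up → 1 ≤ Om Y)
    (hwin : ∀ j0 j4, j4 ≤ j0 + 4 → -2 * C.P.M + C.P.g ≤ j0 → j4 < C.P.N - C.P.g →
      ∃ v1 v2 : Lt, (bb v1 = 1 ∨ bb v1 = -1) ∧ (bb v2 = 1 ∨ bb v2 = -1) ∧
        ∀ j, j0 ≤ j → j ≤ j4 → OKw C lo up (bb v1) (dd v1) (bb v2) (dd v2) j)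
    (x : ℤ) (hx : ∀ i : ℕ, i < 4 ^ 2 → F.w (x + i) ≠ 0) :
    1 / 1024 ≤ ∑ i ∈ range (4 ^ 2), Fl F (fun _ _ => 1) Om 2 (x + (i : ℕ)) := by
  have hin : ∀ i : ℕ, i < 4 ^ 2 → -2 * C.P.M + C.P.g ≤ blk (x + i) ∧
      blk (x + i) < C.P.N - C.P.g := fun i hi => blk_of_w h hw σ F hF (hx i hi)
  obtain ⟨v1, v2, hb1, hb2, hok⟩ := hwin (blk x) (blk (x + 15)) (by unfold blk; omega)
    (by have := (hin 0 (by norm_num)).1; simpa using this)
    (by have := (hin 15 (by norm_num)).2; simpa using this)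
  -- choice of the state
  obtain ⟨i, hi, hX, hX1⟩ : ∃ i : ℕ, i < 4 ^ 2 ∧
      (x + i) - 4 * blk (x + i) = rho σ (bb v1) ∧
      (blk (x + i) + cL C.P.Q C.P.N v1) - 4 * blk (blk (x + i) + cL C.P.Q C.P.N v1)
        = rho σ (bb v2) := by
    have r1 : rho σ (bb v1) = -1 ∨ rho σ (bb v1) = 2 := by
      unfold rho; split_ifs <;> simp
    have r2 : rho σ (bb v2) = -1 ∨ rho σ (bb v2) = 2 := by
      unfold rho; split_ifs <;> simp
    generalize rho σ (bb v1) = a1 at r1 ⊢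
    generalize rho σ (bb v2) = a2 at r2 ⊢
    generalize cL C.P.Q C.P.N v1 = c1
    set i0 := (a1 - x) % 4 with hi0
    set i1 := (a2 - c1 - blk (x + i0)) % 4 with hi1
    have b0 : 0 ≤ i0 ∧ i0 < 4 := by omega
    have b1 : 0 ≤ i1 ∧ i1 < 4 := by omega
    refine ⟨(i0 + 4 * i1).toNat, by norm_num; omega, ?_, ?_⟩
    · have e : (((i0 + 4 * i1).toNat : ℕ) : ℤ) = i0 + 4 * i1 := Int.toNat_of_nonneg (by omega)
      rw [e]
      unfold blk at *
      omega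
    · have e : (((i0 + 4 * i1).toNat : ℕ) : ℤ) = i0 + 4 * i1 := Int.toNat_of_nonneg (by omega)
      rw [e]
      have e2 : blk (x + (i0 + 4 * i1)) = blk (x + i0) + i1 := by unfold blk; omega
      rw [e2]
      generalize blk (x + i0) = y at *
      unfold blk
      omega
  have hi' : i < 16 := by simpa using hi
  have hF1 := Fl_ge h hw σ F hF Om hO (x + i) v1 v2 hb1 hb2 hX (hin i hi) lo up hOm
    (hok _ (by unfold blk; omega) (by unfold blk; omega)) hX1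
  refine hF1.trans ?_
  exact single_le_sum (f := fun i : ℕ => Fl F (fun _ _ => 1) Om 2 (x + (i : ℕ)))
    (fun i _ => Fl_nonneg F (fun _ _ => zero_le_one) hO 2 _) (mem_range.2 hi)

end

lemma ex_lt {b d : ℤ} (hb : b = 1 ∨ b = -1) (hd : d = 0 ∨ d = 1) :
    ∃ v : Lt, bb v = b ∧ dd v = d := by
  rcases hb with rfl | rfl <;> rcases hd with rfl | rfl
  · exact ⟨(2, 0), by norm_num [bb], by norm_num [dd]⟩
  · exact ⟨(2, 1), by norm_num [bb], by norm_num [dd]⟩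
  · exact ⟨(0, 0), by norm_num [bb], by norm_num [dd]⟩
  · exact ⟨(0, 1), by norm_num [bb], by norm_num [dd]⟩

/-- **landing, case A** -/
theorem landA {γ : Type*} {Q N : ℤ} (Dm : LFam (cL Q N) γ) (σ : Bool) (P : γ → Par) (p : ℝ)
    (hp : p ≤ 1 / 16384) (lo up : ℤ)
    (hE : ∀ g ∈ Dm.G, (chA (P g)).Ex) (hA : ∀ g ∈ Dm.G, HA (P g))
    (hN : ∀ g ∈ Dm.G, (P g).N = N) (hQ : ∀ g ∈ Dm.G, (P g).Q = Q)
    (hF : ∀ g ∈ Dm.G, ∀ X v, (Dm.F g).W X v = (chA (P g)).W σ X v)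
    (hg1 : ∀ g ∈ Dm.G, 0 ≤ (P g).D → 1000 * (P g).g ≤ (P g).N)
    (hg2 : ∀ g ∈ Dm.G, (P g).D < 0 → 3000 * (P g).g ≤ -1000 * (P g).D + 2000 + 3 * (P g).N)
    (hlo : ∀ g ∈ Dm.G, 50 * lo ≤ 200 * (P g).M + 800 * (P g).g + 200 * max (P g).D 0 + (P g).N)
    (hup : ∀ g ∈ Dm.G,
      200 * (P g).N - 800 * (P g).g - 200 * max (P g).D 0 - (P g).N ≤ 50 * up) :
    Dm.Land (ind lo up) 2 p := by
  intro g hg x hx
  have hA' := hA g hg
  have hE' := hE g hg
  have hN' := hN g hg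
  have hQ' := hQ g hg
  have hF' := hF g hg
  have h1' := hg1 g hg
  have h2' := hg2 g hg
  have hlo' := hlo g hg
  have hup' := hup g hg
  generalize Dm.F g = F at *
  generalize P g = P' at *
  subst hN' hQ'
  have key := land16 (C := chA P') hE' hA'.wok σ F hF' (ind lo up) (ind_nonneg lo up) lo up
    (fun Y h1 h2 => by unfold ind; rw [if_pos (mem_Icc.2 ⟨h1, h2⟩)])
    (fun j0 j4 h04 h0 h4 => by
      rcases wordA P' hA' h1' h2' lo up hlo' hup' j0 j4 h04 h0 h4 with hk | hk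
      · obtain ⟨v1, e1, e2⟩ := ex_lt (b := -1) (d := 0) (by norm_num) (by norm_num)
        obtain ⟨v2, e3, e4⟩ := ex_lt (b := 1) (d := 1) (by norm_num) (by norm_num)
        exact ⟨v1, v2, by rw [e1]; norm_num, by rw [e3]; norm_num, by
          rw [e1, e2, e3, e4]; exact hk⟩
      · obtain ⟨v1, e1, e2⟩ := ex_lt (b := -1) (d := 1) (by norm_num) (by norm_num)
        obtain ⟨v2, e3, e4⟩ := ex_lt (b := 1) (d := 1) (by norm_num) (by norm_num)
        exact ⟨v1, v2, by rw [e1]; norm_num, by rw [e3]; norm_num, by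
          rw [e1, e2, e3, e4]; exact hk⟩) x hx
  refine le_trans ?_ key
  calc p * 4 ^ 2 ≤ 1 / 16384 * 4 ^ 2 := mul_le_mul_of_nonneg_right hp (by norm_num)
    _ = 1 / 1024 := by norm_num

/-- **landing, case B** -/
theorem landB {γ : Type*} {Q N : ℤ} (Dm : LFam (cL Q N) γ) (σ : Bool) (P : γ → Par) (p : ℝ)
    (hp : p ≤ 1 / 16384) (lo up : ℤ)
    (hE : ∀ g ∈ Dm.G, (chB (P g)).Ex) (hA : ∀ g ∈ Dm.G, HB (P g))
    (hN : ∀ g ∈ Dm.G, (P g).N = N) (hQ : ∀ g ∈ Dm.G, (P g).Q = Q)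
    (hF : ∀ g ∈ Dm.G, ∀ X v, (Dm.F g).W X v = (chB (P g)).W σ X v)
    (hg : ∀ g ∈ Dm.G, 1000 * (P g).g ≤ 106 * (P g).N + 1000)
    (hlo : 1000 * lo ≤ 1880 * N) (hup : 2890 * N ≤ 1000 * up) :
    Dm.Land (ind lo up) 2 p := by
  intro g hgm x hx
  have hA' := hA g hgm
  have hE' := hE g hgm
  have hN' := hN g hgm
  have hQ' := hQ g hgm
  have hF' := hF g hgm
  have h1' := hg g hgm
  generalize Dm.F g = F at *
  generalize P g = P' at *
  subst hN' hQ'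
  have key := land16 (C := chB P') hE' hA'.wok σ F hF' (ind lo up) (ind_nonneg lo up) lo up
    (fun Y h1 h2 => by unfold ind; rw [if_pos (mem_Icc.2 ⟨h1, h2⟩)])
    (fun j0 j4 h04 h0 h4 => by
      rcases wordB P' hA' h1' lo up hlo hup j0 j4 h04 h0 h4 with hk | hk | hk
      · obtain ⟨v1, e1, e2⟩ := ex_lt (b := -1) (d := 0) (by norm_num) (by norm_num)
        obtain ⟨v2, e3, e4⟩ := ex_lt (b := 1) (d := 1) (by norm_num) (by norm_num)
        exact ⟨v1, v2, by rw [e1]; norm_num, by rw [e3]; norm_num, by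
          rw [e1, e2, e3, e4]; exact hk⟩
      · obtain ⟨v1, e1, e2⟩ := ex_lt (b := -1) (d := 1) (by norm_num) (by norm_num)
        obtain ⟨v2, e3, e4⟩ := ex_lt (b := 1) (d := 1) (by norm_num) (by norm_num)
        exact ⟨v1, v2, by rw [e1]; norm_num, by rw [e3]; norm_num, by
          rw [e1, e2, e3, e4]; exact hk⟩
      · obtain ⟨v1, e1, e2⟩ := ex_lt (b := 1) (d := 0) (by norm_num) (by norm_num)
        exact ⟨v1, v1, by rw [e1]; norm_num, by rw [e1]; norm_num, by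
          rw [e1, e2]; exact hk⟩) x hx
  refine le_trans ?_ key
  calc p * 4 ^ 2 ≤ 1 / 16384 * 4 ^ 2 := mul_le_mul_of_nonneg_right hp (by norm_num)
    _ = 1 / 1024 := by norm_num

/-- **landing for the family `FA`** -/
theorem landFA {N M D g0 g1 c0 c1 : ℤ} (hP : PA N M D g0 g1 c0 c1) (σ : Bool)
    (Dm : LFam (cL (2 * N + D) N) ℤ) (hG : ∀ g ∈ Dm.G, g0 ≤ g ∧ g ≤ g1)
    (hF : ∀ g ∈ Dm.G, Dm.F g = FA N M D σ g) (cc : ℤ) (hcc : 400 * cc ≤ N) (p : ℝ)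
    (hp : p ≤ 1 / 16384) :
    Dm.Land (ind (4 * c0 - 1 + cc) (4 * c1 - 2 - cc)) 2 p := by
  have hP' := hP
  obtain ⟨hN, hM, D1, D2, h0, gD, gu, g1', g1'', a1, a2, a3, a4⟩ := hP'
  refine landA Dm σ (fun g => ⟨N, M, D, g⟩) p hp _ _ (fun g hg => exA (hP.toA (hG g hg)))
    (fun g hg => hP.toA (hG g hg)) (fun _ _ => rfl) (fun _ _ => rfl)
    (fun g hg X v => by rw [hF g hg]; exact FA_W (hP.toA (hG g hg)) X v) ?_ ?_ ?_ ?_
  · intro g hg h
    have := hG g hg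
    simp only at *
    omega
  · intro g hg h
    have := hG g hg
    simp only at *
    omega
  · intro g hg
    have := hG g hg
    simp only at *
    rcases le_or_gt 0 D with hD | hD
    · rw [max_eq_left hD]; have := a1 hD; omega
    · rw [max_eq_right hD.le]; have := a2 hD; omega
  · intro g hg
    have := hG g hg
    simp only at *
    rcases le_or_gt 0 D with hD | hD
    · rw [max_eq_left hD]; have := a3 hD; omega
    · rw [max_eq_right hD.le]; have := a4 hD; omega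

/-- **landing for the family `FB`** -/
theorem landFB {N M D g0 g1 ga c0 c1 : ℤ} (hP : PB N M D g0 g1 ga c0 c1) (σ : Bool)
    (Dm : LFam (cL (2 * N + D) N) ℤ) (hG : ∀ g ∈ Dm.G, g0 ≤ g ∧ g ≤ g1)
    (hF : ∀ g ∈ Dm.G, Dm.F g = FB N M D σ g) (cc : ℤ) (hcc : 400 * cc ≤ N) (p : ℝ)
    (hp : p ≤ 1 / 16384) :
    Dm.Land (ind (4 * c0 - 1 + cc) (4 * c1 - 2 - cc)) 2 p := by
  have hP' := hP
  obtain ⟨hN, hM, D1, D2, h0, h0', g1', g1'', ga', ga'', a1, a2, a3⟩ := hP'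
  refine landB Dm σ (fun g => ⟨N, M, D, g⟩) p hp _ _ (fun g hg => exB (hP.toB (hG g hg)))
    (fun g hg => hP.toB (hG g hg)) (fun _ _ => rfl) (fun _ _ => rfl)
    (fun g hg X v => by rw [hF g hg]; exact FB_W (hP.toB (hG g hg)) X v) ?_ ?_ ?_
  · intro g hg
    have := hG g hg
    simp only at *
    omega
  · omega
  · omega

/-- **landing for the labelled family `lfA`** -/
theorem landLA {N M D g0 g1 c0 c1 : ℤ} (hP : PA N M D g0 g1 c0 c1) (σ : Bool)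
    (G : Finset ℤ) (hG : ∀ g ∈ G, g0 ≤ g ∧ g ≤ g1) (cc : ℤ) (hcc : 400 * cc ≤ N) (p : ℝ)
    (hp : p ≤ 1 / 16384) :
    (lfA N M D σ G).Land (ind (4 * c0 - 1 + cc) (4 * c1 - 2 - cc)) 2 p := by
  have hP' := hP
  obtain ⟨hN, hM, D1, D2, h0, gD, gu, g1', g1'', a1, a2, a3, a4⟩ := hP'
  refine landA (lfA N M D σ G) σ (fun g => ⟨N, M, D, g⟩) p hp _ _
    (fun g hg => exA (hP.toA (hG g hg)))
    (fun g hg => hP.toA (hG g hg)) (fun _ _ => rfl) (fun _ _ => rfl)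
    (fun g hg X v => Fam.fl_W (famA N M D) σ (okA (hP.toA (hG g hg))) X v) ?_ ?_ ?_ ?_
  · intro g hg h
    have := hG g hg
    simp only at *
    omega
  · intro g hg h
    have := hG g hg
    simp only at *
    omega
  · intro g hg
    have := hG g hg
    simp only at *
    rcases le_or_gt 0 D with hD | hD
    · rw [max_eq_left hD]; have := a1 hD; omega
    · rw [max_eq_right hD.le]; have := a2 hD; omega
  · intro g hg
    have := hG g hg
    simp only at *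
    rcases le_or_gt 0 D with hD | hD
    · rw [max_eq_left hD]; have := a3 hD; omega
    · rw [max_eq_right hD.le]; have := a4 hD; omega

/-- **landing for the labelled family `lfB`** -/
theorem landLB {N M D g0 g1 ga c0 c1 : ℤ} (hP : PB N M D g0 g1 ga c0 c1) (σ : Bool)
    (G : Finset ℤ) (hG : ∀ g ∈ G, g0 ≤ g ∧ g ≤ g1) (cc : ℤ) (hcc : 400 * cc ≤ N) (p : ℝ)
    (hp : p ≤ 1 / 16384) :
    (lfB N M D σ G).Land (ind (4 * c0 - 1 + cc) (4 * c1 - 2 - cc)) 2 p := by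
  have hP' := hP
  obtain ⟨hN, hM, D1, D2, h0, h0', g1', g1'', ga', ga'', a1, a2, a3⟩ := hP'
  refine landB (lfB N M D σ G) σ (fun g => ⟨N, M, D, g⟩) p hp _ _
    (fun g hg => exB (hP.toB (hG g hg)))
    (fun g hg => hP.toB (hG g hg)) (fun _ _ => rfl) (fun _ _ => rfl)
    (fun g hg X v => Fam.fl_W (famB N M D) σ (okB (hP.toB (hG g hg))) X v) ?_ ?_ ?_
  · intro g hg
    have := hG g hg
    simp only at *
    omega
  · change 1000 * (4 * c0 - 1 + cc) ≤ 1880 * N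
    omega
  · change 2890 * N ≤ 1000 * (4 * c1 - 2 - cc)
    omega

end Pool.Agent.H62.RP2
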