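import Mathlib

/-! Team RP, window near 2 (helper62): the final numbers. -/

set_option autoImplicit false

namespace Pool.Agent.H62.RP2

/-- the real constant `K₁` of the growth inequality -/
noncomputable def K1r (Cl q : ℝ) (s : ℕ) : ℝ :=
  ((4 * (s + 2) : ℝ) + (4 * (s + 2) + 1) * (2 * (Cl * (16 * 4 ^ 21 * (4 ^ (2 * 2) * (s + 1) ^ 47 *
    (1920 * (s + 1) + 1)) + 1)))) * (2 * 2) / q

/-- the growth constant -/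
noncomputable def KK (Cl q : ℝ) (s : ℕ) : ℕ := ⌈3 * K1r Cl q s⌉₊

/-- the number of moves -/
noncomputable def nn (Cl q : ℝ) (s : ℕ) : ℕ := 2 * KK Cl q s * (2 * s + 5)

lemma K1r_nonneg {Cl q : ℝ} (hCl : 0 ≤ Cl) (hq : 0 < q) (s : ℕ) : 0 ≤ K1r Cl q s := by
  unfold K1r
  positivity

lemma K1r_le {Cl q : ℝ} (hCl : 0 ≤ Cl) (hq : 0 < q) :
    ∃ C : ℝ, 0 ≤ C ∧ ∀ s : ℕ, K1r Cl q s ≤ C * ((s : ℝ) + 1) ^ 49 := by
  refine ⟨(8 + 18 * (Cl * (16 * 4 ^ 21 * (4 ^ (2 * 2) * 1921) + 1))) * (2 * 2) / q, by positivity,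
    fun s => ?_⟩
  unfold K1r
  rw [div_mul_eq_mul_div]
  apply div_le_div_of_nonneg_right _ hq.le
  have hx : (1 : ℝ) ≤ (s : ℝ) + 1 := by
    have : (0 : ℝ) ≤ s := Nat.cast_nonneg s
    linarith
  have e : (s : ℝ) + 2 = ((s : ℝ) + 1) + 1 := by ring
  rw [e]
  generalize (s : ℝ) + 1 = x at hx ⊢
  have hx0 : 0 ≤ x := by linarith
  have p49 : x ≤ x ^ 49 := le_self_pow₀ hx (by norm_num)
  have p48 : (1 : ℝ) ≤ x ^ 48 := one_le_pow₀ hx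
  have h1 : (4 : ℝ) ^ (2 * 2) * x ^ 47 * (1920 * x + 1) ≤ 4 ^ (2 * 2) * 1921 * x ^ 48 := by
    have : 1920 * x + 1 ≤ 1921 * x := by linarith
    calc (4 : ℝ) ^ (2 * 2) * x ^ 47 * (1920 * x + 1) ≤ 4 ^ (2 * 2) * x ^ 47 * (1921 * x) :=
          mul_le_mul_of_nonneg_left this (by positivity)
      _ = _ := by ring
  have h2 : 16 * 4 ^ 21 * (4 ^ (2 * 2) * x ^ 47 * (1920 * x + 1)) + 1 ≤
      (16 * 4 ^ 21 * (4 ^ (2 * 2) * 1921) + 1) * x ^ 48 := by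
    have := mul_le_mul_of_nonneg_left h1 (show (0 : ℝ) ≤ 16 * 4 ^ 21 by positivity)
    linarith
  have h3 : 2 * (Cl * (16 * 4 ^ 21 * (4 ^ (2 * 2) * x ^ 47 * (1920 * x + 1)) + 1)) ≤
      2 * (Cl * (16 * 4 ^ 21 * (4 ^ (2 * 2) * 1921) + 1)) * x ^ 48 := by
    have := mul_le_mul_of_nonneg_left h2 hCl
    linarith
  have h4 : (4 * (x + 1) + 1) * (2 * (Cl * (16 * 4 ^ 21 * (4 ^ (2 * 2) * x ^ 47 *
      (1920 * x + 1)) + 1))) ≤ (9 * x) *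
      (2 * (Cl * (16 * 4 ^ 21 * (4 ^ (2 * 2) * 1921) + 1)) * x ^ 48) :=
    mul_le_mul (by linarith) h3 (by positivity) (by positivity)
  have h5 : (9 * x) * (2 * (Cl * (16 * 4 ^ 21 * (4 ^ (2 * 2) * 1921) + 1)) * x ^ 48) =
      18 * (Cl * (16 * 4 ^ 21 * (4 ^ (2 * 2) * 1921) + 1)) * x ^ 49 := by ring
  have h6 : 4 * (x + 1) ≤ 8 * x ^ 49 := by linarith
  nlinarith [h4, h5, h6]

lemma KK_le {Cl q : ℝ} (hCl : 0 ≤ Cl) (hq : 0 < q) :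
    ∃ C : ℕ, ∀ s : ℕ, KK Cl q s ≤ C * (s + 1) ^ 49 := by
  obtain ⟨C, hC, h⟩ := K1r_le hCl hq
  refine ⟨⌈3 * C⌉₊, fun s => ?_⟩
  unfold KK
  rw [Nat.ceil_le]
  push_cast
  calc 3 * K1r Cl q s ≤ 3 * (C * ((s : ℝ) + 1) ^ 49) := by linarith [h s]
    _ = (3 * C) * ((s : ℝ) + 1) ^ 49 := by ring
    _ ≤ _ := mul_le_mul_of_nonneg_right (Nat.le_ceil _) (by positivity)

lemma nn_le {Cl q : ℝ} (hCl : 0 ≤ Cl) (hq : 0 < q) :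
    ∃ C : ℕ, ∀ s : ℕ, nn Cl q s ≤ C * (s + 1) ^ 50 := by
  obtain ⟨C, h⟩ := KK_le hCl hq
  refine ⟨10 * C, fun s => ?_⟩
  unfold nn
  calc 2 * KK Cl q s * (2 * s + 5) ≤ 2 * (C * (s + 1) ^ 49) * (5 * (s + 1)) :=
        Nat.mul_le_mul (Nat.mul_le_mul_left _ (h s)) (by omega)
    _ = 10 * C * (s + 1) ^ 50 := by ring

end Pool.Agent.H62.RP2
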