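import Pool.Agent.H62.RP2.Trunc
import Pool.Agent.H62.RP2.Nums
import Pool.Agent.H62.RP2.Land
import Pool.Agent.H98.RP2.BaseA
import Pool.Agent.H6.RP2.HitA
import Pool.Agent.H54.RP.LinkF
import Pool.Agent.H98.RP2.Window

/-! Team RP, window near 2 (helper62): assembly of case A (up to the link). -/

set_option autoImplicit false

namespace Pool.Agent.H62.RP2

open Finset H54RP Pool.Agent.H98.RP2 Pool.Agent.H6.RP2 Pool.Agent.H6.LvdP2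

lemma Flow_ext {ι : Type*} [Fintype ι] {c : ι → ℤ} {F G : Flow c} (h1 : F.W = G.W)
    (h2 : F.supp = G.supp) : F = G := by
  cases F
  cases G
  simp only at h1 h2
  subst h1 h2
  rfl

lemma fl_FA {N M D g : ℤ} (h : HA ⟨N, M, D, g⟩) (σ : Bool) :
    (famA N M D).fl σ g = FA N M D σ g := by
  apply Flow_ext (c := cL (2 * N + D) N)
  · funext X v
    rw [FA_W h]
    exact Fam.fl_W (famA N M D) σ (okA h) X v
  · exact Fam.fl_supp (famA N M D) σ (okA h)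

/-- the states whose block is in `C_R` or its mirror image -/
noncomputable def CCs (M a0 a1 : ℤ) : Finset ℤ :=
  Icc (4 * a0 - 1) (4 * a1 - 2) ∪ Icc (4 * (M - a1 + 1) - 1) (4 * (M - a0) + 2)

lemma mem_CCs {M a0 a1 Y : ℤ} : Y ∈ CCs M a0 a1 ↔ CB M a0 a1 (blk Y) := by
  unfold CCs CB blk
  rw [mem_union, mem_Icc, mem_Icc]
  omega

open Classical in
/-- the states to be reached -/
noncomputable def SS (P : Par) (s : ℕ) : Finset ℤ :=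
  (Chn.sup P).filter fun X => ¬ DigB (s + 1) X

open Classical in
lemma mem_SS {P : Par} {s : ℕ} {X : ℤ} :
    X ∈ SS P s ↔ (-2 * P.M + P.g ≤ blk X ∧ blk X < P.N - P.g) ∧ ¬ DigB (s + 1) X := by
  unfold SS
  rw [mem_filter, Chn.mem_sup]

open Classical in
lemma SS_subset (P : Par) (s : ℕ) : SS P s ⊆ Chn.sup P := by
  unfold SS
  exact filter_subset _ _

lemma card_SS {P : Par} {s : ℕ} (hN : P.N = 3 * P.M + 1) (h4 : P.N = 4 ^ s) (hg : 0 ≤ P.g) :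
    (SS P s).card ≤ 4 ^ (s + 2) := by
  refine (card_le_card (SS_subset P s)).trans ?_
  unfold Chn.sup
  rw [Int.card_Icc]
  have h0 : (0 : ℤ) < 4 ^ s := by positivity
  have h : (((4 * (P.N - P.g) - 2 + 1 - (4 * (-2 * P.M + P.g) - 1)).toNat : ℕ) : ℤ) ≤
      ((4 ^ (s + 2) : ℕ) : ℤ) := by
    have e : ((4 ^ (s + 2) : ℕ) : ℤ) = 16 * 4 ^ s := by push_cast; ring
    rw [e]
    omega
  exact_mod_cast h

lemma log_SS {P : Par} {s : ℕ} (hN : P.N = 3 * P.M + 1) (h4 : P.N = 4 ^ s) (hg : 0 ≤ P.g) :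
    Nat.log 2 (SS P s).card + 1 ≤ 2 * s + 5 := by
  have h1 := card_SS hN h4 hg
  have h2 : Nat.log 2 (SS P s).card ≤ Nat.log 2 (2 ^ (2 * (s + 2))) := by
    apply Nat.log_mono_right
    refine h1.trans (le_of_eq ?_)
    rw [pow_mul]; norm_num
  rw [Nat.log_pow (by norm_num)] at h2
  omega

lemma KK_pos {Cl q : ℝ} (hCl : 0 ≤ Cl) (hq : 0 < q) (s : ℕ) : 1 ≤ KK Cl q s := by
  unfold KK
  have : 0 < 3 * K1r Cl q s := by unfold K1r; positivity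
  exact Nat.one_le_iff_ne_zero.2 (Nat.ceil_pos.2 this).ne'

/-- the numerical inequality of the growth step -/
lemma num_ineq {Cl q : ℝ} (hCl : 0 ≤ Cl) (hq : 0 < q) {s L m : ℕ} (hL : L ≤ s)
    (hm : m ≤ 4 * (s + 2)) :
    (m + (m + 1) * (2 * (Cl * (16 * 4 ^ 21 * (4 ^ (2 * 2) * ((L : ℝ) + 1) ^ 47 *
      (1920 * ((s : ℝ) + 1) + 1)) + 1)))) * (2 * 2) ≤ q * K1r Cl q s := by
  have e : q * K1r Cl q s = ((4 * (s + 2) : ℝ) + (4 * (s + 2) + 1) * (2 * (Cl * (16 * 4 ^ 21 *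
      (4 ^ (2 * 2) * (s + 1) ^ 47 * (1920 * (s + 1) + 1)) + 1)))) * (2 * 2) := by
    unfold K1r
    field_simp
  rw [e]
  have hm' : (m : ℝ) ≤ 4 * ((s : ℝ) + 2) := by exact_mod_cast hm
  have hL' : (L : ℝ) + 1 ≤ (s : ℝ) + 1 := by
    have : (L : ℝ) ≤ s := by exact_mod_cast hL
    linarith
  have hp : ((L : ℝ) + 1) ^ 47 ≤ ((s : ℝ) + 1) ^ 47 := pow_le_pow_left₀ (by positivity) hL' 47
  gcongr

lemma PA.split {N M D g0 g1 c0 c1 : ℤ} (hP : PA N M D g0 g1 c0 c1) :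
    (0 ≤ D ∧ g0 = 0 ∧ c0 = M + 2 + 4 * g1 + D ∧ c1 = N - 4 * g1 - 1 - D) ∨
    (D < 0 ∧ 3 * g0 ≤ -D + 2 ∧ c0 = M + 2 + 4 * g1 ∧ c1 = N - 4 * g1 - 1) := by
  obtain ⟨hN3, hM, D1, D2, hg0, gD, gu, g1', g1'', a1, a2, a3, a4⟩ := hP
  rcases le_or_gt 0 D with hD | hD
  · left
    have e1 := a1 hD
    have e3 := a3 hD
    clear a1 a2 a3 a4
    exact ⟨hD, by omega, e1, e3⟩
  · right
    have e1 := a2 hD
    have e3 := a4 hD
    clear a1 a2 a3 a4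
    exact ⟨hD, by omega, e1, e3⟩

lemma PA.nums {N M D g0 g1 c0 c1 y : ℤ} (hP : PA N M D g0 g1 c0 c1)
    (hN : 1000 * y ≤ N) :
    g0 ≤ g1 ∧ N < 1000 * (g1 + 1 - g0) ∧ 400 * (N / 400) ≤ N ∧ 2 * y ≤ N / 400 ∧
    4 * c0 - 1 + 5 * y ≤ 4 * c1 - 2 ∧ (4 * c1 - 2) - (4 * c0 - 1) ≤ 4 * N ∧
    (D ≤ 0 → 150 * (c0 + N / 1000) ≤ 150 * (M + 4 * g0) + N) ∧
    (0 ≤ D → 150 * (c0 + N / 1000) ≤ 150 * (M + 4 * g0 + D) + N) ∧
    (D ≤ 0 → 150 * (N - 4 * g0) - N ≤ 150 * (c1 - N / 1000)) ∧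
    (0 ≤ D → 150 * (N - 4 * g0 - D) - N ≤ 150 * (c1 - N / 1000)) := by
  have hs := PA.split hP
  obtain ⟨hN3, hM, D1, D2, hg0, gD, gu, g1', g1'', a1, a2, a3, a4⟩ := hP
  clear a1 a2 a3 a4 gu
  rcases hs with ⟨h1, h2, h3, h4⟩ | ⟨h1, h2, h3, h4⟩
  · subst h2 h3 h4
    refine ⟨by omega, by omega, by omega, by omega, by omega, by omega, fun h => by omega,
      fun h => by omega, fun h => by omega, fun h => by omega⟩
  · subst h3 h4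
    refine ⟨by omega, by omega, by omega, by omega, by omega, by omega, fun h => by omega,
      fun h => by omega, fun h => by omega, fun h => by omega⟩

/-- assembly of case A, given the link -/
theorem coreA_of_link {s : ℕ} {N M D g0 g1 c0 c1 : ℤ} (hs : 25 ≤ s) (hN : N = 4 ^ s)
    (hP : PA N M D g0 g1 c0 c1) (σ : Bool) (Cl : ℝ) (hCl : 0 ≤ Cl)
    (link : ∀ f : ℤ → ℝ, (∀ X, f X = 0 ∨ f X = 1) → ∀ e : ℝ, (e = 0 ∨ e = 1) → ∀ E : ℝ,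
      (∀ g, g0 ≤ g → g ≤ g1 → (FA N M D σ g).E1 f ≤ E) →
      ∑ X ∈ CCs M (c0 + N / 1000) (c1 - N / 1000), |f X - e| ≤
        Cl * (∑ X ∈ Icc (4 * c0 - 1 + 2 * 4 ^ (s - 20)) (4 * c1 - 2 - 3 * 4 ^ (s - 20)),
          |f X - e| + E))
    (U : ℕ → Set ℤ) (hUU : Monotone U)
    (hstep : ∀ n, ∀ X ∈ U n, ∀ g, g0 ≤ g ∧ g ≤ g1 → ∀ v, (FA N M D σ g).W X v ≠ 0 →
      T (cL (2 * N + D) N) v X ∈ U (n + 1))
    (hD : ∀ X ∈ U (nn Cl (1 / 4096) s), ¬ DigB (s + 1) X)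
    (h0 : ∃ X ∈ U 0, -2 * M + g0 ≤ blk X ∧ blk X < N - g0) :
    ∀ X, (-2 * M + g0 ≤ blk X ∧ blk X < N - g0) → ¬ DigB (s + 1) X →
      X ∈ U (nn Cl (1 / 4096) s) := by
  have hgu := hP.h0u
  have hg0 := hP.h0
  have hN3 := hP.hN
  obtain ⟨L, hL⟩ : ∃ L, L = s - 20 := ⟨_, rfl⟩
  rw [← hL] at link
  have hs' : s = L + 20 := by omega
  have hN4 : N = 1099511627776 * 4 ^ L := by
    rw [hN, hs', pow_add]; norm_num; ring
  have h4L : (0 : ℤ) < 4 ^ L := by positivity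
  obtain ⟨hg01, hNg, hcc, h2L, h5L, hAB, k1, k2, k3, k4⟩ :=
    PA.nums (y := 4 ^ L) hP (by rw [hN4]; linarith)
  have hA0 : HA ⟨N, M, D, g0⟩ := hP.toA ⟨le_rfl, hg01⟩
  have hq0 : (0 : ℝ) < 1 / 4096 := by norm_num
  have hfl : ∀ g, g0 ≤ g → g ≤ g1 → (lfA N M D σ (Icc g0 g1)).F g = FA N M D σ g := fun g h1 h2 =>
    fl_FA (hP.toA ⟨h1, h2⟩) σ
  have hcard : ((lfA N M D σ (Icc g0 g1)).G.card : ℝ) = ((g1 + 1 - g0 : ℤ) : ℝ) := by
    change (((Icc g0 g1).card : ℕ) : ℝ) = _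
    rw [Int.card_Icc]
    have : (((g1 + 1 - g0).toNat : ℕ) : ℤ) = g1 + 1 - g0 := Int.toNat_of_nonneg (by linarith)
    exact_mod_cast this
  have c2' : (((4 * c1 - 2 : ℤ) : ℝ)) - ((4 * c0 - 1 : ℤ) : ℝ) ≤ 4 ^ 21 * 4 ^ L := by
    have h2 : (((4 * c1 - 2) - (4 * c0 - 1) : ℤ) : ℝ) ≤ ((4 * (1099511627776 * 4 ^ L) : ℤ) : ℝ) := by
      rw [← hN4]
      exact_mod_cast hAB
    push_cast at h2 ⊢
    linarith
  have c3' : 8 * ((lfA N M D σ (Icc g0 g1)).kB) * 4 ^ L ≤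
      1 / 32768 * ((lfA N M D σ (Icc g0 g1)).G.card : ℝ) := by
    rw [hcard]
    have e : (lfA N M D σ (Icc g0 g1)).kB = 364 := by
      simp only [lfA, Fam.lf]; norm_num
    rw [e]
    rw [hN4] at hNg
    have h2 : (1099511627776 * 4 ^ L : ℝ) < 1000 * ((g1 + 1 - g0 : ℤ) : ℝ) := by
      exact_mod_cast hNg
    have h3 : (0 : ℝ) < 4 ^ L := by positivity
    push_cast at h2 ⊢
    linarith
  have hw1 : ∀ g ∈ (lfA N M D σ (Icc g0 g1)).G, ∀ X ∈ Icc (4 * c0 - 1) (4 * c1 - 2),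
      1 ≤ ((lfA N M D σ (Icc g0 g1)).F g).w X := fun g hg X hX => by
    have hg' := mem_Icc.1 hg
    have e := hfl g hg'.1 hg'.2
    have e2 := FA_w (σ := σ) (hP.toA hg') X
    rw [← e] at e2
    rw [mem_Icc] at hX
    rw [hP.w_cR hg' (j := blk X) (by clear * - hX; unfold blk; omega)] at e2
    refine le_of_eq ?_
    rw [Int.cast_one] at e2
    exact e2.symm
  have hw2 : ∀ g ∈ Icc g0 g1, ∀ X, ((lfA N M D σ (Icc g0 g1)).F g).w X ≤ 2 := fun g hg X => by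
    have hg' := mem_Icc.1 hg
    have e := hfl g hg'.1 hg'.2
    have e2 := FA_w (σ := σ) (hP.toA hg') X
    rw [← e] at e2
    refine le_trans (le_of_eq e2) ?_
    exact_mod_cast Chn.w_le (hP.toA hg').wok (blk X)
  have hL' := landLA hP σ (Icc g0 g1) (fun g hg => mem_Icc.1 hg) (N / 400) hcc
    (2 * (1 / 32768)) (by norm_num)
  have hbase : ∀ f : ℤ → ℝ, (∀ X, f X = 0 ∨ f X = 1) → ∀ E : ℝ,
      (∀ g ∈ Icc g0 g1, ((lfA N M D σ (Icc g0 g1)).F g).E1 f ≤ E) →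
      vr f (4 * c0 - 1) (4 * c1 - 2) 1 ≤ (1920 * (s + 1)) * E := fun f _ E hE => by
    have := hE g0 (mem_Icc.2 ⟨le_rfl, hg01⟩)
    rw [hfl g0 le_rfl hg01] at this
    exact base_A (le_trans (by norm_num) hs) hN hP σ f E this
  have hlink : ∀ f : ℤ → ℝ, (∀ X, f X = 0 ∨ f X = 1) → ∀ e : ℝ, (e = 0 ∨ e = 1) → ∀ E : ℝ,
      (∀ g ∈ Icc g0 g1, ((lfA N M D σ (Icc g0 g1)).F g).E1 f ≤ E) →
      ∑ X ∈ CCs M (c0 + N / 1000) (c1 - N / 1000), |f X - e| ≤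
        Cl * (∑ X ∈ Icc (4 * c0 - 1 + 2 * 4 ^ L) (4 * c1 - 2 - 3 * 4 ^ L), |f X - e| + E) :=
    fun f hf e he E hE => link f hf e he E fun g h1 h2 => by
      have := hE g (mem_Icc.2 ⟨h1, h2⟩)
      rwa [hfl g h1 h2] at this
  have hS1 : SS ⟨N, M, D, g0⟩ s ⊆ ((lfA N M D σ (Icc g0 g1)).F g0).supp := by
    rw [hfl g0 le_rfl hg01]
    exact SS_subset _ _
  have hS1w : ∀ X ∈ SS ⟨N, M, D, g0⟩ s, 1 ≤ ((lfA N M D σ (Icc g0 g1)).F g0).w X :=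
    fun X hX => by
      have e2 := FA_w (σ := σ) hA0 X
      rw [← hfl g0 le_rfl hg01] at e2
      refine le_trans ?_ (le_of_eq e2.symm)
      exact_mod_cast Chn.w_pos hA0.wok (mem_SS.1 hX).1
  have hhit : ∀ X ∈ SS ⟨N, M, D, g0⟩ s, (1 / 4096 : ℝ) ≤
      eta ((lfA N M D σ (Icc g0 g1)).F g0)
        (fun Y => Y ∈ CCs M (c0 + N / 1000) (c1 - N / 1000)) (s + 4) X := fun X hX => by
    rw [hfl g0 le_rfl hg01]
    obtain ⟨h1, h2⟩ := mem_SS.1 hX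
    refine (hit_A (P := ⟨N, M, D, g0⟩) hA0 hgu σ hN (a0 := c0 + N / 1000)
      (a1 := c1 - N / 1000) k1 k2 k3 k4 (FA N M D σ g0) (fun X v => FA_W hA0 X v) h1 h2).trans ?_
    · exact eta_mono_set (FA N M D σ g0) (fun Y hY => mem_CCs.2 hY) _ X
  have hK1 := num_ineq hCl hq0 (L := L) (m := s + 4) (s := s) (by rw [hs']; exact Nat.le_add_right _ _)
    (by clear * -; omega)
  have hK : K1r Cl (1 / 4096) s + 2 * K1r Cl (1 / 4096) s ≤ (KK Cl (1 / 4096) s : ℝ) := by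
    have := Nat.le_ceil (3 * K1r Cl (1 / 4096) s)
    unfold KK
    linarith
  have hn1 : 2 * KK Cl (1 / 4096) s * (Nat.log 2 (SS ⟨N, M, D, g0⟩ s).card + 1) ≤
      nn Cl (1 / 4096) s := by
    have := log_SS (P := ⟨N, M, D, g0⟩) (s := s) hN3 hN hg0
    unfold nn
    exact Nat.mul_le_mul_left _ this
  have hstep' : ∀ n < nn Cl (1 / 4096) s, ∀ X ∈ U n, ∀ g ∈ Icc g0 g1, ∀ v,
      ((lfA N M D σ (Icc g0 g1)).F g).W X v ≠ 0 →
        T (cL (famA N M D).q (famA N M D).N) v X ∈ U (n + 1) :=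
    fun n _ X hX g hg v hv => by
      have hg' := mem_Icc.1 hg
      rw [hfl g hg'.1 hg'.2] at hv
      exact hstep n X hX g hg' v hv
  have hcl' : ∀ n ≤ nn Cl (1 / 4096) s, ∀ g ∈ Icc g0 g1,
      ∀ X ∈ ((lfA N M D σ (Icc g0 g1)).F g).supp, X ∈ U n → X ∈ SS ⟨N, M, D, g0⟩ s :=
    fun n hn g hg X hX hXU => by
      have hg' := mem_Icc.1 hg
      rw [hfl g hg'.1 hg'.2, FA_mem] at hX
      rw [mem_SS]
      exact ⟨⟨by simp only; linarith [hX.1, hg'.1], by simp only; linarith [hX.2, hg'.1]⟩,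
        hD X (hUU hn hXU)⟩
  have h0' : ∃ X ∈ SS ⟨N, M, D, g0⟩ s, X ∈ U 0 := by
    obtain ⟨X, hX, hb⟩ := h0
    exact ⟨X, mem_SS.2 ⟨hb, hD X (hUU (Nat.zero_le _) hX)⟩, hX⟩
  have hGc : 0 < (lfA N M D σ (Icc g0 g1)).G.card := by
    exact card_pos.2 ⟨g0, mem_Icc.2 ⟨le_rfl, hg01⟩⟩
  have key := reachT (lfA N M D σ (Icc g0 g1)) (Icc g0 g1) (subset_refl _) hGc
    g0 (mem_Icc.2 ⟨le_rfl, hg01⟩) (4 * c0 - 1) (4 * c1 - 2) (N / 400) (1 / 32768) 2 (by norm_num)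
    (by norm_num) (by norm_num) 2 le_rfl hw1 hw2 hL' 47 (by norm_num) L c3' h2L h5L
    (4 ^ 21) (by norm_num) c2' (1920 * (s + 1)) (by positivity) hbase
    (CCs M (c0 + N / 1000) (c1 - N / 1000)) Cl hCl hlink (SS ⟨N, M, D, g0⟩ s) hS1 hS1w
    (s + 4) (1 / 4096) hq0 hhit (K1r Cl (1 / 4096) s) hK1 (KK Cl (1 / 4096) s) hK
    (KK_pos hCl hq0 s) (nn Cl (1 / 4096) s) hn1 U hUU hstep' hcl' h0'
  intro X hX hXD
  exact key X (mem_SS.2 ⟨hX, hXD⟩)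

/-- **core statement, case A** -/
theorem coreA : ∃ C : ℕ, CoreA C 50 25 := by
  obtain ⟨C, hC⟩ := nn_le (Cl := 352) (q := 1 / 4096) (by norm_num) (by norm_num)
  refine ⟨C, ?_⟩
  intro s hs N M D g0 g1 c0 c1 hN hP σ U hUU hstep hD h0 X hX hXD
  have hnn := hC s
  refine hUU hnn ?_
  refine coreA_of_link hs hN hP σ 352 (by norm_num) ?_ U hUU hstep
    (fun X hX => hD X (hUU hnn hX)) h0 X hX hXD
  intro f _ a _ E hE
  obtain ⟨L, hL⟩ : ∃ L, L = s - 20 := ⟨_, rfl⟩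
  rw [← hL]
  have hs' : s = L + 20 := by omega
  have hN4 : N = 1099511627776 * 4 ^ L := by
    rw [hN, hs', pow_add]; norm_num; ring
  have h4L : (0 : ℤ) < 4 ^ L := by positivity
  have hN0 : 0 < N := by rw [hN]; positivity
  exact linkFA σ hP (4 ^ L) (N / 1000) (by rw [hN4]; linarith) h4L.le (by clear * -; omega)
    (by clear * - hN0; omega) f a E (hE g0 le_rfl hP.g01)

end Pool.Agent.H62.RP2
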