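import Pool.Agent.H98.RP2.Defs
set_option autoImplicit false
set_option linter.unusedSimpArgs false
/-! Team RP, window near 2 (helper62): positivity regions of `D0`, `D1`. -/
namespace Pool.Agent.H62.RP2
open Pool.Agent.H98.RP2

theorem st_one {x : ℤ} (h : 0 ≤ x) : st x = 1 := if_pos h
theorem st_zero {x : ℤ} (h : x < 0) : st x = 0 := if_neg (not_le.2 h)


theorem A1a (P : Par) (h : HA P) (V : ℤ) (l0 : -2 * P.N - 2 * P.M - P.D + P.g ≤ V) (u0 : V < -2 * P.N - P.D - 4 * P.g - 1) :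
    1 ≤ P.D1 P.thA V := by
  obtain ⟨hN, hM, a1, a2, a3, a4, a5⟩ := h
  simp only [Par.D1, Par.D0, Par.R, Par.G, Par.ZG, Par.thA, Par.thB, Par.Q, Par.al, Par.be, Par.ua, Par.ub, iv]
  rcases lt_or_ge V (-3 * P.N + P.M + 4 * P.g + 2) with x0 | x0
  · simp (disch := omega) only [st_one, st_zero]
    norm_num
  · simp (disch := omega) only [st_one, st_zero]
    norm_num

theorem A1b (P : Par) (h : HA P) (V : ℤ) (l0 : -2 * P.N - P.D - P.g ≤ V) (u0 : V < -P.N - P.D - 4 * P.g - 1) :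
    1 ≤ P.D1 P.thA V := by
  obtain ⟨hN, hM, a1, a2, a3, a4, a5⟩ := h
  simp only [Par.D1, Par.D0, Par.R, Par.G, Par.ZG, Par.thA, Par.thB, Par.Q, Par.al, Par.be, Par.ua, Par.ub, iv]
  rcases lt_or_ge V (-2 * P.N + P.M + 4 * P.g + 2) with x0 | x0
  · simp (disch := omega) only [st_one, st_zero]
    norm_num
  · simp (disch := omega) only [st_one, st_zero]
    norm_num

theorem A0a (P : Par) (h : HA P) (V : ℤ) (l0 : -8 * P.M + 4 * P.g - 1 ≤ V) (u0 : V < -P.N - 2 * P.M - P.D + P.g) :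
    1 ≤ P.D0 P.thA V := by
  obtain ⟨hN, hM, a1, a2, a3, a4, a5⟩ := h
  simp only [Par.D1, Par.D0, Par.R, Par.G, Par.ZG, Par.thA, Par.thB, Par.Q, Par.al, Par.be, Par.ua, Par.ub, iv]
  simp (disch := omega) only [st_one, st_zero]
  norm_num

theorem A0b (P : Par) (h : HA P) (V : ℤ) (l0 : P.N - 8 * P.M + 4 * P.g - 1 ≤ V) (u0 : V < -P.N - P.D - P.g) :
    1 ≤ P.D0 P.thA V := by
  obtain ⟨hN, hM, a1, a2, a3, a4, a5⟩ := h
  simp only [Par.D1, Par.D0, Par.R, Par.G, Par.ZG, Par.thA, Par.thB, Par.Q, Par.al, Par.be, Par.ua, Par.ub, iv]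
  rcases lt_or_ge V (-P.N - P.D - 4 * P.g - 1) with x0 | x0
  · simp (disch := omega) only [st_one, st_zero]
    norm_num
  · simp (disch := omega) only [st_one, st_zero]
    norm_num

theorem A1c (P : Par) (h : HA P) (V : ℤ) (l0 : 2 * P.N - 2 * P.M + P.D + P.g ≤ V) (u0 : V < 2 * P.N - 4 * P.g - 1) :
    1 ≤ P.D1 P.thA V := by
  obtain ⟨hN, hM, a1, a2, a3, a4, a5⟩ := h
  simp only [Par.D1, Par.D0, Par.R, Par.G, Par.ZG, Par.thA, Par.thB, Par.Q, Par.al, Par.be, Par.ua, Par.ub, iv]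
  rcases lt_or_ge V (P.N + P.M + P.D + 4 * P.g + 2) with x0 | x0
  · simp (disch := omega) only [st_one, st_zero]
    norm_num
  · simp (disch := omega) only [st_one, st_zero]
    norm_num

theorem B1a (P : Par) (h : HB P) (V : ℤ) (l0 : -2 * P.N - 2 * P.M - P.D + P.g ≤ V) (u0 : V < -3 * P.N + P.M - P.D + 4 * P.g + 2) :
    1 ≤ P.D1 P.thB V := by
  obtain ⟨hN, hM, a1, a2, a3, a4⟩ := h
  simp only [Par.D1, Par.D0, Par.R, Par.G, Par.ZG, Par.thA, Par.thB, Par.Q, Par.al, Par.be, Par.ua, Par.ub, iv]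
  rcases lt_or_ge V (-3 * P.N + P.M + 4 * P.g + 2) with x0 | x0
  · simp (disch := omega) only [st_one, st_zero]
    norm_num
  · simp (disch := omega) only [st_one, st_zero]
    norm_num

theorem B1b (P : Par) (h : HB P) (V : ℤ) (l0 : -2 * P.N - P.D - P.g ≤ V) (u0 : V < -2 * P.N + P.M - P.D + 4 * P.g + 2) :
    1 ≤ P.D1 P.thB V := by
  obtain ⟨hN, hM, a1, a2, a3, a4⟩ := h
  simp only [Par.D1, Par.D0, Par.R, Par.G, Par.ZG, Par.thA, Par.thB, Par.Q, Par.al, Par.be, Par.ua, Par.ub, iv]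
  rcases lt_or_ge V (-P.N - P.D - 4 * P.g - 1) with x0 | x0
  · rcases lt_or_ge V (-P.N - 4 * P.g - 1) with x1 | x1
    · simp (disch := omega) only [st_one, st_zero]
      norm_num
    · rcases lt_or_ge V (-2 * P.N + P.M + 4 * P.g + 2) with x2 | x2
      · simp (disch := omega) only [st_one, st_zero]
        norm_num
      · simp (disch := omega) only [st_one, st_zero]
        norm_num
  · rcases lt_or_ge V (-2 * P.N + P.M + 4 * P.g + 2) with x1 | x1
    · simp (disch := omega) only [st_one, st_zero]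
      norm_num
    · simp (disch := omega) only [st_one, st_zero]
      norm_num

theorem B0a (P : Par) (h : HB P) (V : ℤ) (l0 : -8 * P.M + 4 * P.g - 1 ≤ V) (u0 : V < -P.N - 2 * P.M - P.D + P.g) :
    1 ≤ P.D0 P.thB V := by
  obtain ⟨hN, hM, a1, a2, a3, a4⟩ := h
  simp only [Par.D1, Par.D0, Par.R, Par.G, Par.ZG, Par.thA, Par.thB, Par.Q, Par.al, Par.be, Par.ua, Par.ub, iv]
  simp (disch := omega) only [st_one, st_zero]
  norm_num

theorem B0b (P : Par) (h : HB P) (V : ℤ) (l0 : P.N - 8 * P.M + 4 * P.g - 1 ≤ V) (u0 : V < -P.N - P.D - P.g) :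
    1 ≤ P.D0 P.thB V := by
  obtain ⟨hN, hM, a1, a2, a3, a4⟩ := h
  simp only [Par.D1, Par.D0, Par.R, Par.G, Par.ZG, Par.thA, Par.thB, Par.Q, Par.al, Par.be, Par.ua, Par.ub, iv]
  rcases lt_or_ge V (-2 * P.N + P.M - P.D + 4 * P.g + 2) with x0 | x0
  · simp (disch := omega) only [st_one, st_zero]
    norm_num
  · simp (disch := omega) only [st_one, st_zero]
    norm_num

theorem B1c (P : Par) (h : HB P) (V : ℤ) (l0 : 2 * P.N - 2 * P.M + P.D + P.g ≤ V) (u0 : V < 2 * P.N - 4 * P.g - 1) :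
    1 ≤ P.D1 P.thB V := by
  obtain ⟨hN, hM, a1, a2, a3, a4⟩ := h
  simp only [Par.D1, Par.D0, Par.R, Par.G, Par.ZG, Par.thA, Par.thB, Par.Q, Par.al, Par.be, Par.ua, Par.ub, iv]
  rcases lt_or_ge V (2 * P.N + P.D - 4 * P.g - 1) with x0 | x0
  · simp (disch := omega) only [st_one, st_zero]
    norm_num
  · simp (disch := omega) only [st_one, st_zero]
    norm_num

theorem B0c (P : Par) (h : HB P) (V : ℤ) (l0 : P.N + P.M + P.D + 4 * P.g + 2 ≤ V) (u0 : V < 3 * P.N - 2 * P.M + P.D + P.g) :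
    1 ≤ P.D0 P.thB V := by
  obtain ⟨hN, hM, a1, a2, a3, a4⟩ := h
  simp only [Par.D1, Par.D0, Par.R, Par.G, Par.ZG, Par.thA, Par.thB, Par.Q, Par.al, Par.be, Par.ua, Par.ub, iv]
  rcases lt_or_ge V (P.N + P.M + 4 * P.g + 2) with x0 | x0
  · rcases lt_or_ge V (2 * P.N - 4 * P.g - 1) with x1 | x1
    · simp (disch := omega) only [st_one, st_zero]
      norm_num
    · simp (disch := omega) only [st_one, st_zero]
      norm_num
  · simp (disch := omega) only [st_one, st_zero]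
    norm_num

theorem B0d (P : Par) (h : HB P) (V : ℤ) (l0 : 3 * P.N + P.D - 4 * P.g - 1 ≤ V) (u0 : V < 3 * P.N + P.D - P.g) :
    1 ≤ P.D0 P.thB V := by
  obtain ⟨hN, hM, a1, a2, a3, a4⟩ := h
  simp only [Par.D1, Par.D0, Par.R, Par.G, Par.ZG, Par.thA, Par.thB, Par.Q, Par.al, Par.be, Par.ua, Par.ub, iv]
  rcases lt_or_ge V (3 * P.N - 4 * P.g - 1) with x0 | x0
  · simp (disch := omega) only [st_one, st_zero]
    norm_num
  · simp (disch := omega) only [st_one, st_zero]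
    norm_num

theorem B1d (P : Par) (h : HB P) (V : ℤ) (l0 : 2 * P.N + P.D - P.g ≤ V) (u0 : V < 3 * P.N - 4 * P.g - 1) :
    1 ≤ P.D1 P.thB V := by
  obtain ⟨hN, hM, a1, a2, a3, a4⟩ := h
  simp only [Par.D1, Par.D0, Par.R, Par.G, Par.ZG, Par.thA, Par.thB, Par.Q, Par.al, Par.be, Par.ua, Par.ub, iv]
  simp (disch := omega) only [st_one, st_zero]
  norm_num

end Pool.Agent.H62.RP2
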