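import Pool.Agent.H54.RP.Assemble

/-! Team RP, window near 2 (helper62): reachability with hypotheses up to time `n1`. -/

set_option autoImplicit false

namespace Pool.Agent.H62.RP2

open Finset H54RP

variable {ι : Type*} [Fintype ι] {c : ι → ℤ} {γ : Type*}

/-- everything is reached before the time `n1` -/
theorem reachT (D : LFam c γ) (Gall : Finset γ) (hGG : D.G ⊆ Gall) (hG : 0 < D.G.card)
    (g0 : γ) (hg0 : g0 ∈ Gall) (A B cc : ℤ) (p wM : ℝ) (hp : 0 < p) (hp1 : 2 * p ≤ 1)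
    (hwM : 1 ≤ wM) (r : ℕ) (hr : 2 ≤ r)
    (hw1 : ∀ g ∈ D.G, ∀ X ∈ Icc A B, 1 ≤ (D.F g).w X)
    (hw2 : ∀ g ∈ Gall, ∀ X, (D.F g).w X ≤ wM)
    (hL : D.Land (ind (A + cc) (B - cc)) r (2 * p)) (κ : ℕ) (hκ : 8 * wM ≤ p * (4 / 3 : ℝ) ^ κ)
    (L : ℕ) (hN : 8 * D.kB * 4 ^ L ≤ p * D.G.card) (hc : 2 * 4 ^ L ≤ cc)
    (hAB : A + 5 * 4 ^ L ≤ B) (R : ℝ) (hR : 1 ≤ R) (hlen : ((B : ℝ) - A) ≤ R * 4 ^ L)
    (Cb : ℝ) (hCb : 0 ≤ Cb)
    (base : ∀ f : ℤ → ℝ, (∀ X, f X = 0 ∨ f X = 1) → ∀ E : ℝ, (∀ g ∈ Gall, (D.F g).E1 f ≤ E) →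
      vr f A B 1 ≤ Cb * E)
    (CC : Finset ℤ) (Cl : ℝ) (hCl : 0 ≤ Cl)
    (link : ∀ f : ℤ → ℝ, (∀ X, f X = 0 ∨ f X = 1) → ∀ e : ℝ, (e = 0 ∨ e = 1) → ∀ E : ℝ,
      (∀ g ∈ Gall, (D.F g).E1 f ≤ E) →
      ∑ X ∈ CC, |f X - e| ≤
        Cl * (∑ X ∈ Icc (A + 2 * 4 ^ L) (B - 3 * 4 ^ L), |f X - e| + E))
    (S1 : Finset ℤ) (hS1 : S1 ⊆ (D.F g0).supp) (hS1w : ∀ X ∈ S1, 1 ≤ (D.F g0).w X)
    (m : ℕ) (q : ℝ) (hq0 : 0 < q) (hq : ∀ X ∈ S1, q ≤ eta (D.F g0) (fun Y => Y ∈ CC) m X)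
    (K1 : ℝ) (hK1 : (m + (m + 1) * (wM * (Cl * (16 * R * (4 ^ (2 * r) * (L + 1) ^ κ * (Cb + 1)) + 1)))) *
      (2 * wM) ≤ q * K1) (K : ℕ) (hK : K1 + wM * K1 ≤ K) (hKpos : 1 ≤ K) (n1 : ℕ)
    (hn1 : 2 * K * (Nat.log 2 S1.card + 1) ≤ n1)
    (U : ℕ → Set ℤ) (hUU : Monotone U)
    (hstep : ∀ n < n1, ∀ X ∈ U n, ∀ g ∈ Gall, ∀ v, (D.F g).W X v ≠ 0 → T c v X ∈ U (n + 1))
    (hcl : ∀ n ≤ n1, ∀ g ∈ Gall, ∀ X ∈ (D.F g).supp, X ∈ U n → X ∈ S1)
    (h0 : ∃ X ∈ S1, X ∈ U 0) : ∀ X ∈ S1, X ∈ U n1 := by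
  classical
  have hwM0 : 0 ≤ wM := by linarith
  have hV := reach_all S1 (fun n => if n ≤ n1 then S1.filter (fun X => X ∈ U n) else S1) K
    (by
      obtain ⟨X, hX, hU⟩ := h0
      simp only [Nat.zero_le, if_true]
      exact ⟨X, mem_filter.2 ⟨hX, hU⟩⟩)
    (fun n => by
      split_ifs
      · exact filter_subset _ _
      · exact subset_rfl)
    (fun i j hij X hX => by
      by_cases h1 : j ≤ n1
      · have h2 : i ≤ n1 := hij.trans h1
        simp only [if_pos h1, if_pos h2] at hX ⊢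
        rw [mem_filter] at hX ⊢
        exact ⟨hX.1, hUU hij hX.2⟩
      · simp only [if_neg h1]
        simp only at hX
        split_ifs at hX
        · exact (mem_filter.1 hX).1
        · exact hX)
    (fun n => by
      rcases lt_trichotomy n n1 with hlt | heq | hgt
      · rw [if_pos hlt.le, if_pos (Nat.succ_le_of_lt hlt)]
        have h1 := growth_step D Gall hGG hG g0 hg0 A B cc p wM hp hp1 hwM r hr hw1 hw2 hL κ hκ L hN
          hc hAB R hR hlen Cb hCb base CC Cl hCl link S1 ∅ hS1 hS1w m q hq0 hq g0 hg0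
          (empty_subset _) (fun X hX => absurd hX (notMem_empty X)) 0 1 one_pos
          (fun X hX => absurd hX (notMem_empty X)) (U n) (U (n + 1)) (hUU (Nat.le_succ n))
          (hstep n hlt) (fun g hg X hX hXU => by
            rw [union_empty]; exact hcl (n + 1) (Nat.succ_le_of_lt hlt) g hg X hX hXU)
          K1 hK1 (wM * K1) (by simp)
        rw [union_empty] at h1
        have e1 : S1 \ S1.filter (fun X => X ∈ U n) = S1.filter (fun X => X ∉ U n) := by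
          ext X; simp only [mem_sdiff, mem_filter]; tauto
        have e2 : S1.filter (fun X => X ∈ U (n + 1)) \ S1.filter (fun X => X ∈ U n) =
            S1.filter (fun Y => Y ∈ U (n + 1) ∧ Y ∉ U n) := by
          ext X; simp only [mem_sdiff, mem_filter]; tauto
        rw [e1, e2]
        have h2 : ((min (S1.filter (fun X => X ∈ U n)).card (S1.filter (fun X => X ∉ U n)).card : ℕ)
            : ℝ) ≤ ((K * (S1.filter (fun Y => Y ∈ U (n + 1) ∧ Y ∉ U n)).card : ℕ) : ℝ) := by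
          push_cast
          refine le_trans ?_ (mul_le_mul_of_nonneg_right hK (Nat.cast_nonneg _))
          convert h1
        exact_mod_cast h2
      · subst heq
        rw [if_pos le_rfl, if_neg (by omega)]
        refine (min_le_right _ _).trans ?_
        exact Nat.le_mul_of_pos_left _ hKpos
      · rw [if_neg (by omega), if_neg (by omega)]
        simp)
  intro X hX
  have hle : (2 * K * (Nat.log 2 S1.card + 1)) ≤ n1 := hn1
  simp only [if_pos hle] at hV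
  have : X ∈ S1.filter (fun X => X ∈ U (2 * K * (Nat.log 2 S1.card + 1))) := by rw [hV]; exact hX
  exact hUU hle (mem_filter.1 this).2

end Pool.Agent.H62.RP2
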