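import Pool.Agent.H62.RP2.Pos

/-! Team RP, window near 2 (helper62): two-letter words landing in the middle. -/

set_option autoImplicit false

namespace Pool.Agent.H62.RP2
open Pool.Agent.H98.RP2

/-- the word `(b1,d1),(b2,d2)` is available at block `j` and lands in `[lo, hi]` -/
structure OKw (C : Chn) (lo hi b1 d1 b2 d2 j : ℤ) : Prop where
  p1 : 1 ≤ C.Dd d1 (j + C.P.Q * b1)
  p2 : 1 ≤ C.Dd d2 (H54RP.blk (j + C.P.Q * b1 + C.P.N * d1) + C.P.Q * b2)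
  t1 : lo ≤ H54RP.blk (j + C.P.Q * b1 + C.P.N * d1) + C.P.Q * b2 + C.P.N * d2
  t2 : H54RP.blk (j + C.P.Q * b1 + C.P.N * d1) + C.P.Q * b2 + C.P.N * d2 ≤ hi

/-- case A -/
theorem wordA (P : Par) (h : HA P) (hg1 : 0 ≤ P.D → 1000 * P.g ≤ P.N)
    (hg2 : P.D < 0 → 3000 * P.g ≤ -1000 * P.D + 2000 + 3 * P.N) (lo hi : ℤ)
    (hlo : 50 * lo ≤ 200 * P.M + 800 * P.g + 200 * max P.D 0 + P.N)
    (hhi : 200 * P.N - 800 * P.g - 200 * max P.D 0 - P.N ≤ 50 * hi)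
    (j0 j4 : ℤ) (h04 : j4 ≤ j0 + 4) (hj0 : -2 * P.M + P.g ≤ j0) (hj4 : j4 < P.N - P.g) :
    (∀ j, j0 ≤ j → j ≤ j4 → OKw (chA P) lo hi (-1) 0 1 1 j) ∨
    (∀ j, j0 ≤ j → j ≤ j4 → OKw (chA P) lo hi (-1) 1 1 1 j) := by
  have hh := h
  obtain ⟨hN, hM, a1, a2, a3, a4, a5⟩ := hh
  by_cases c1 : 5 * j0 < -2 * P.N
  · right
    intro j h1 h2
    refine ⟨?_, ?_, ?_, ?_⟩
    · simp only [chA, Chn.Dd, if_true]
      refine A1a P h _ ?_ ?_ <;> (unfold Par.Q; omega)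
    · simp only [chA, Chn.Dd, if_true, H54RP.blk]
      refine A1c P h _ ?_ ?_ <;> (unfold Par.Q; omega)
    · simp only [chA, H54RP.blk, Par.Q]; omega
    · simp only [chA, H54RP.blk, Par.Q]; omega
  by_cases c2 : 25 * j0 < 8 * P.N
  · left
    intro j h1 h2
    refine ⟨?_, ?_, ?_, ?_⟩
    · simp only [chA, Chn.Dd, if_neg (show ¬ (0 : ℤ) = 1 by norm_num)]
      refine A0a P h _ ?_ ?_ <;> (unfold Par.Q; omega)
    · simp only [chA, Chn.Dd, if_true, H54RP.blk]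
      refine A1c P h _ ?_ ?_ <;> (unfold Par.Q; omega)
    · simp only [chA, H54RP.blk, Par.Q]; omega
    · simp only [chA, H54RP.blk, Par.Q]; omega
  by_cases c3 : 2 * j0 < P.N
  · right
    intro j h1 h2
    refine ⟨?_, ?_, ?_, ?_⟩
    · simp only [chA, Chn.Dd, if_true]
      refine A1b P h _ ?_ ?_ <;> (unfold Par.Q; omega)
    · simp only [chA, Chn.Dd, if_true, H54RP.blk]
      refine A1c P h _ ?_ ?_ <;> (unfold Par.Q; omega)
    · simp only [chA, H54RP.blk, Par.Q]; omega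
    · simp only [chA, H54RP.blk, Par.Q]; omega
  · left
    intro j h1 h2
    refine ⟨?_, ?_, ?_, ?_⟩
    · simp only [chA, Chn.Dd, if_neg (show ¬ (0 : ℤ) = 1 by norm_num)]
      refine A0b P h _ ?_ ?_ <;> (unfold Par.Q; omega)
    · simp only [chA, Chn.Dd, if_true, H54RP.blk]
      refine A1c P h _ ?_ ?_ <;> (unfold Par.Q; omega)
    · simp only [chA, H54RP.blk, Par.Q]; omega
    · simp only [chA, H54RP.blk, Par.Q]; omega

/-- case B -/
theorem wordB (P : Par) (h : HB P) (hg : 1000 * P.g ≤ 106 * P.N + 1000) (lo hi : ℤ)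
    (hlo : 1000 * lo ≤ 1880 * P.N) (hhi : 2890 * P.N ≤ 1000 * hi)
    (j0 j4 : ℤ) (h04 : j4 ≤ j0 + 4) (hj0 : -2 * P.M + P.g ≤ j0) (hj4 : j4 < P.N - P.g) :
    (∀ j, j0 ≤ j → j ≤ j4 → OKw (chB P) lo hi (-1) 0 1 1 j) ∨
    (∀ j, j0 ≤ j → j ≤ j4 → OKw (chB P) lo hi (-1) 1 1 1 j) ∨
    (∀ j, j0 ≤ j → j ≤ j4 → OKw (chB P) lo hi 1 0 1 0 j) := by
  have hh := h
  obtain ⟨hN, hM, a1, a2, a3, a4⟩ := hh
  by_cases c1 : 10 * j0 < -3 * P.N
  · right; left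
    intro j h1 h2
    refine ⟨?_, ?_, ?_, ?_⟩
    · simp only [chB, Chn.Dd, if_true]
      refine B1a P h _ ?_ ?_ <;> (unfold Par.Q; omega)
    · simp only [chB, Chn.Dd, if_true, H54RP.blk]
      refine B1c P h _ ?_ ?_ <;> (unfold Par.Q; omega)
    · simp only [chB, H54RP.blk, Par.Q]; omega
    · simp only [chB, H54RP.blk, Par.Q]; omega
  by_cases c2 : 1000 * j0 < 435 * P.N
  · left
    intro j h1 h2
    refine ⟨?_, ?_, ?_, ?_⟩
    · simp only [chB, Chn.Dd, if_neg (show ¬ (0 : ℤ) = 1 by norm_num)]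
      refine B0a P h _ ?_ ?_ <;> (unfold Par.Q; omega)
    · simp only [chB, Chn.Dd, if_true, H54RP.blk]
      refine B1c P h _ ?_ ?_ <;> (unfold Par.Q; omega)
    · simp only [chB, H54RP.blk, Par.Q]; omega
    · simp only [chB, H54RP.blk, Par.Q]; omega
  by_cases c3 : 10 * j0 < 7 * P.N
  · right; left
    intro j h1 h2
    refine ⟨?_, ?_, ?_, ?_⟩
    · simp only [chB, Chn.Dd, if_true]
      refine B1b P h _ ?_ ?_ <;> (unfold Par.Q; omega)
    · simp only [chB, Chn.Dd, if_true, H54RP.blk]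
      refine B1d P h _ ?_ ?_ <;> (unfold Par.Q; omega)
    · simp only [chB, H54RP.blk, Par.Q]; omega
    · simp only [chB, H54RP.blk, Par.Q]; omega
  · right; right
    intro j h1 h2
    refine ⟨?_, ?_, ?_, ?_⟩
    · simp only [chB, Chn.Dd, if_neg (show ¬ (0 : ℤ) = 1 by norm_num)]
      refine B0d P h _ ?_ ?_ <;> (unfold Par.Q; omega)
    · simp only [chB, Chn.Dd, if_neg (show ¬ (0 : ℤ) = 1 by norm_num), H54RP.blk]
      refine B0d P h _ ?_ ?_ <;> (unfold Par.Q; omega)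
    · simp only [chB, H54RP.blk, Par.Q]; omega
    · simp only [chB, H54RP.blk, Par.Q]; omega

end Pool.Agent.H62.RP2
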